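import Pool.Agent.helper51.VF.SpecC
import Pool.Agent.helper92.QS.NRM

/-!
# Project vf (MP_74cfa5_ag), row GTR: generation at a singular point
-/

set_option autoImplicit false

namespace Pool.Agent.VF

open Pool.Agent.PC Pool.Agent.QS

universe u

theorem GTR (hUNM : QS.UNM_stmt.{u}) (hDV1 : QS.DV1_stmt.{u}) (hRSP : RSP_stmt.{u}) : GTR_stmt.{u} := by
  intro A _ _ _ Q I t hQp ht0 hrad hIQ htI hIt hTri r s x N hsQ hs hint hz
  have hspI : Ideal.span {t} ≤ I := by
    rw [Ideal.span_singleton_le_iff_mem]
    exact htI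
  have htQ : t ∈ Q := hIQ htI
  have hst : ∀ x, Inn Q (Ideal.span {t}) (s * x) → Inn Q (Ideal.span {t}) x := by
    rintro y ⟨ρ, hρ, h1⟩
    have h2 : s * (ρ * y) ∈ I := by
      have e : s * (ρ * y) = ρ * (s * y) := by ring
      rw [e]
      exact hspI h1
    exact NRM_cancel hQp hρ (hIt _ (hs _ h2))
  rcases hTri with ⟨d, hd, hd2⟩ | ⟨v, hv, hv2⟩ | ⟨q0, hq0, q1, hq1, q2, hq2, hq0n, hr1, hr2⟩
  · -- principal
    exfalso
    obtain ⟨σ, hσ, hσ1⟩ := hd2 s hsQ
    obtain ⟨τ, hτ, hτ1⟩ := hd2 t htQ
    rw [Ideal.mem_span_singleton] at hσ1 hτ1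
    obtain ⟨s', hs'⟩ := hσ1
    obtain ⟨t', ht'⟩ := hτ1
    have h1 : Inn Q (Ideal.span {t}) (s * (σ * t')) := by
      refine NRM_mem hQp (Ideal.mem_span_singleton.2 ⟨τ * s', ?_⟩)
      calc s * (σ * t') = σ * s * t' := by ring
        _ = d * s' * t' := by rw [hs']
        _ = d * t' * s' := by ring
        _ = τ * t * s' := by rw [ht']
        _ = t * (τ * s') := by ring
    obtain ⟨ρ, hρ, h2⟩ := hst _ h1
    rw [Ideal.mem_span_singleton] at h2
    obtain ⟨e, he⟩ := h2
    have h3 : ρ * σ * τ = d * e := by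
      have h4 : t * (ρ * σ * τ) = t * (d * e) := by
        calc t * (ρ * σ * τ) = ρ * σ * (τ * t) := by ring
          _ = ρ * σ * (d * t') := by rw [ht']
          _ = d * (ρ * (σ * t')) := by ring
          _ = d * (t * e) := by rw [he]
          _ = t * (d * e) := by ring
      exact mul_left_cancel₀ ht0 h4
    have h5 : ρ * σ * τ ∈ Q := by
      rw [h3]
      exact Ideal.mul_mem_right _ _ hd
    rcases hQp.mem_or_mem h5 with h6 | h6
    · rcases hQp.mem_or_mem h6 with h7 | h7
      · exact hρ h7
      · exact hσ h7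
    · exact hτ h6
  · -- the discrete valuation ring
    have := hQp
    set L := Localization.AtPrime Q with hL
    set al := algebraMap A L with hal
    have hmax : IsLocalRing.maximalIdeal L = Ideal.span {al t, al v} := by
      rw [← Localization.AtPrime.map_eq_maximalIdeal (I := Q)]
      apply le_antisymm
      · rw [Ideal.map_le_iff_le_comap]
        intro b hb
        have h1 := (NRM_bridge Q _ b).2 (hv2 b hb)
        rw [Ideal.map_span, Set.image_pair] at h1
        exact h1
      · rw [Ideal.span_le]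
        rintro y (rfl | rfl)
        · exact Ideal.mem_map_of_mem _ htQ
        · exact Ideal.mem_map_of_mem _ hv
    have hspan1 : (Ideal.span {t}).map al = Ideal.span {al t} := by
      rw [Ideal.map_span, Set.image_singleton]
    have hspan2 : (Ideal.span {s, t}).map al = Ideal.span {al s, al t} := by
      rw [Ideal.map_span, Set.image_pair]
    have hradL : (Ideal.span {al t} : Ideal L).IsRadical := by
      rintro y ⟨n, hn⟩
      obtain ⟨a, w, hw, ha⟩ := NRM_surj Q y
      have h1 : al (a ^ n) ∈ (Ideal.span {t}).map al := by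
        rw [hspan1, map_pow]
        have h2 : al a ^ n = y ^ n * w ^ n := by
          rw [← mul_pow, ha]
        rw [h2]
        exact Ideal.mul_mem_right _ _ hn
      obtain ⟨ρ, hρ, h3⟩ := (NRM_bridge Q _ _).1 h1
      have h4 : ρ * a ∈ I := by
        apply hrad
        refine ⟨n + 1, ?_⟩
        have e : (ρ * a) ^ (n + 1) = ρ ^ n * a * (ρ * a ^ n) := by ring
        rw [e]
        exact Ideal.mul_mem_left _ _ (hspI h3)
      have h5 : Inn Q (Ideal.span {t}) a := NRM_cancel hQp hρ (hIt _ h4)
      have h5' : al a ∈ (Ideal.span {t}).map al := (NRM_bridge Q _ _).2 h5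
      rw [hspan1] at h5'
      have h6 : y * w ∈ Ideal.span {al t} := by
        rw [ha]
        exact h5'
      exact (NRM_unit _ hw).1 h6
    have hcond : ∀ y : L, al t ∣ al s * y → al t ∣ y := by
      intro y hy
      rw [← Ideal.mem_span_singleton, ← hspan1] at hy ⊢
      exact NRM_transfer Q _ _ s hst y hy
    have hpoly : ∃ (N : ℕ) (a : ℕ → L), 0 < N ∧ al t ∣ al r ^ N + ∑ i ∈ Finset.range N, a i * al r ^ i * al s ^ (N - i) := by
      obtain ⟨N, a, hN, h1⟩ := hint
      refine ⟨N, fun i => al (a i), hN, ?_⟩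
      have h2 : al _ ∈ (Ideal.span {t}).map al := (NRM_bridge Q _ _).2 (hIt _ h1)
      rw [hspan1, Ideal.mem_span_singleton] at h2
      simpa only [map_add, map_sum, map_mul, map_pow] using h2
    have hnoe : IsNoetherianRing L := IsLocalization.isNoetherianRing Q.primeCompl L ‹_›
    have hfin := hDV1 L (al t) (al v) hmax hradL (al r) (al s) hcond hpoly
    rw [← hspan2] at hfin
    have h7 : Inn Q (Ideal.span {s, t}) r := (NRM_bridge Q _ _).1 hfin
    exact NRM_mul x h7
  · have := hQp
    set L := Localization.AtPrime Q with hL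
    set al := algebraMap A L with hal
    have hinj : Function.Injective al := IsLocalization.injective L (Ideal.primeCompl_le_nonZeroDivisors Q)
    have hspan1 : (Ideal.span {t}).map al = Ideal.span {al t} := by
      rw [Ideal.map_span, Set.image_singleton]
    have hspan2 : (Ideal.span {s, t}).map al = Ideal.span {al s, al t} := by
      rw [Ideal.map_span, Set.image_pair]
    have hspan3 : (Ideal.span {q0}).map al = Ideal.span {al q0} := by
      rw [Ideal.map_span, Set.image_singleton]
    have hspan4 : (Ideal.span {q0, q1}).map al = Ideal.span {al q0, al q1} := by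
      rw [Ideal.map_span, Set.image_pair]
    have hcond : ∀ y : L, al t ∣ al s * y → al t ∣ y := by
      intro y hy
      rw [← Ideal.mem_span_singleton, ← hspan1] at hy ⊢
      exact NRM_transfer Q _ _ s hst y hy
    have hc1 : ∀ y : L, al q0 ∣ al q1 * y → al q0 ∣ y := by
      intro y hy
      rw [← Ideal.mem_span_singleton, ← hspan3] at hy ⊢
      exact NRM_transfer Q _ _ q1 hr1 y hy
    have hc2 : ∀ y : L, al q2 * y ∈ Ideal.span {al q0, al q1} → y ∈ Ideal.span {al q0, al q1} := by
      intro y hy
      rw [← hspan4] at hy ⊢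
      exact NRM_transfer Q _ _ q2 hr2 y hy
    have hzq : ∀ q ∈ Q, al (x * r) * al q ^ N ∈ Ideal.span {al s, al t} := by
      intro q hq
      have h1 : al (q ^ N * (x * r)) ∈ (Ideal.span {s, t}).map al := (NRM_bridge Q _ _).2 (hz q hq)
      rw [hspan2, map_mul, map_pow, mul_comm] at h1
      exact h1
    have hq0L : al q0 ≠ 0 := fun h => hq0n (hinj (by rw [h, map_zero]))
    obtain ⟨hp1, hp2⟩ := hRSP L (al q0) (al q1) (al q2) N hq0L hc1 hc2
    have hfin := hUNM L (al s) (al t) (al (x * r)) (al q0 ^ N) (al q1 ^ N) (al q2 ^ N)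
      (fun h => ht0 (hinj (by rw [h, map_zero]))) hcond (pow_ne_zero N hq0L) hp1 hp2
      (hzq q0 hq0) (hzq q1 hq1) (hzq q2 hq2)
    rw [← hspan2] at hfin
    exact (NRM_bridge Q _ _).1 hfin

end Pool.Agent.VF
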